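import Pool.Agent.V8H94.TX.Main

/-!
# For products of surfaces, and of threefolds with `h^{0,3} = 0`, the Tate conjecture follows from
its case of codimension two for products of a surface or such a threefold and curves

**Theorem.** Let `W` be a class of smooth projective varieties over finite fields of characteristic
`p`, and for `X` in `W` and `i ≤ dim X` let `c = c (X, i) ≤ i / 2` be such that the slopes of
`H ^ i (X)` are at least `c`: the Frobenius eigenvalues are multiples of `q ^ c` in the ring of
algebraic integers (`c = 0` is always possible). The following statements about algebraic cycles over
the algebraic closure are equivalent:

1. for all products `X` of members of `W` and all abelian varieties `A` the strong Tate conjecture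
   (the Tate conjecture and the semisimplicity of the eigenvalue in question) holds for `X × A` in
   all codimensions, and so does the generalised Tate conjecture in all degrees;
2. (a) the Tate classes of codimension one on abelian varieties, and for abelian varieties
   `B₁, B₂, B₃` and a supersingular elliptic curve `E` those of codimension two in the Künneth component
   `H ^ 1 (B₁) ⊗ H ^ 1 (B₂) ⊗ H ^ 1 (B₃) ⊗ H ^ 1 (E)`, are algebraic, and
   (b) for `X` in `W`, `i ≤ dim X`, `c = c (X, i)`, `j = i - 2 c` and abelian varieties
   `B₁, ..., B_j` the generalised Tate classes `x ⊗ b` in
   `H ^ i (X) ⊗ H ^ 1 (B₁) ⊗ ... ⊗ H ^ 1 (B_j)`, of codimension `i - c`, are algebraic.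

In codimension zero and one, so for `i ≤ 1` in (b), statement 2 holds by the theorem of Tate; it is
about codimension at least two.

Since every abelian variety is a quotient of the Jacobian of a curve, and since the motives `h ^ 1` of
a curve and of its Jacobian are the same, the abelian varieties in 2 can be replaced by curves. So for
a class `W` of surfaces (`i = 2`, `c = 0`) statement 2 is the Tate conjecture, in the strong form, in
codimension two for the fourfolds `X × C₁ × C₂` and `E × C₁ × C₂ × C₃`, `X` in `W`, `C₁, C₂, C₃`
curves, and 1 is about all codimensions on all products of surfaces of the class `W`. In this sense
**the strong Tate conjecture for the products of a surface and two curves, in codimension two, implies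
it in all codimensions for all products of surfaces.** The same is true if `W` consists of surfaces
and of threefolds such that the slopes of `H ^ 3 (X)` are at least one, for instance threefolds with
`H ^ 3 (X, O) = 0` (the conjecture of Katz proved by Mazur and Ogus) and uniruled threefolds (they are
dominated by the product of a surface and a line): then (b) is, for `i ≥ 2`, about the classes in
`H ^ 2 (X) ⊗ H ^ 1 (C₁) ⊗ H ^ 1 (C₂)` and `H ^ 3 (X) ⊗ H ^ 1 (C)`, of codimension two. If `W` consists
of curves (b) is known: the Tate conjecture and the generalised Tate conjecture for all products of
curves over finite fields are equivalent to the Tate conjecture for the classes of codimension two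
in `H ^ 1 (C₁) ⊗ H ^ 1 (C₂) ⊗ H ^ 1 (C₃) ⊗ H ^ 1 (E)`, `E` a fixed supersingular elliptic curve (over
the algebraic closure they are all isogenous). If `W` is the class of all
smooth projective varieties then 1 is the Tate conjecture over finite fields, together with the
semisimplicity of Frobenius and the generalised Tate conjecture. The weak form of the last statement
is the well known theorem that the Tate conjecture implies that all motives over finite fields come
from abelian varieties.

The strong Tate conjecture in 1 consists of the Tate conjecture for all `X × A` and the semisimplicity
of the Frobenius endomorphism on the cohomology of `X`, if the elements of the system have the known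
property of the classes of cycles to be fixed by Frobenius up to `q ^ r`, over a finite extension (this
is the last part of the statement below).

In the statement below the classes of (b) are described by `IsSplit`: the class `b` on the abelian
variety `B` is the product of `v 1, ..., v j` in `H ^ 1 (B)` and there are endomorphisms `e` of `B`
(linear combinations of endomorphisms, by the theorem of Tate the linear maps which commute with
Frobenius) with `e (v l) = v l` and `e (v k) = 0` for `k ≠ l`. Then `b` is the pull-back of
`v 1 ⊗ ... ⊗ v j` on `B ^ j` along `(e_1, ..., e_j)`, and `v 1 ⊗ ... ⊗ v j` is the image of the
pull-back of `b` along the sum `B ^ j → B` under the endomorphism `e_1 × ... × e_j`, so that one of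
these classes is algebraic if and only if the other one is. The members of
`H ^ 1 (B₁) ⊗ ... ⊗ H ^ 1 (B_j)` are of this kind on `B₁ × ... × B_j`. In the same way (a) is described
by `TateWithSupersingular`, where the last of the four classes is supersingular: Frobenius operates on
it as `q ^ (1 / 2)`, over a finite extension; these are the classes which come from `E`, by the theorem
of Tate.

**How this is stated.** Abelian varieties over finite fields are described, as objects `AbVar`, by
their first cohomology with the Frobenius endomorphism (Tate, Honda and Tate); their cohomology is
the exterior algebra; a `CycleSystem` is a family of subspaces of these algebras with the formal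
properties of the algebraic classes. For the other varieties `X` a structure `Cohomology` contains
the cohomology `H X` with its grading, the Frobenius endomorphism and the Lefschetz operator of an
ample divisor defined over the field of definition, and their known properties: finite dimension,
the theorem of Deligne on the eigenvalues of Frobenius, the hard Lefschetz theorem, products over a
common extension of the fields of definition and the Künneth formula. A structure `Cycles` contains a
cycle system on the abelian varieties and subspaces of the cohomology of all `X × A`, with the formal
properties of the algebraic classes: they are stable under cup products with ample divisors on `X` and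
with classes on `A`, under pull-backs along homomorphisms between the abelian varieties, under the
push-forward along `X × A × B → X × A` in the weak form: if `t × [point of B]` belongs to it then `t`
does, and under exterior products. Linear combinations of classes of algebraic cycles over the
algebraic closure have these properties. No theorem on the existence of cycles and no conjecture is
assumed. Powers of Frobenius are used throughout, that is, the statements are about all finite
extensions of the fields of definition.

**Known.** The Tate conjecture for all varieties implies the generalised one, and that all motives
over finite fields come from abelian varieties (Honda and Tate; Milne 1994, Milne and Ramachandran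
2006). The Hodge conjecture for abelian varieties of CM type, for which codimension two suffices by
Hazama (2002), implies the Tate conjecture for abelian varieties over finite fields (Milne 1999). The
equivalence of the strong Tate conjecture with the Tate conjecture and semisimplicity is due to Tate
(1994), Milne and, in the form for all powers, Moonen (2019); see Fu (1999) for partial
semisimplicity. Standard facts used: Deligne, Lieberman and Kleiman (1968). Reductions of the Tate
conjecture to special classes in codimension one, for divisors on surfaces: de Jong, Morrow (2019).
New is that codimension two, on products of a surface and two curves, suffices for the Tate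
conjecture itself, for abelian varieties and for products of surfaces, and that codimension at most
`n` suffices for products of varieties of dimension at most `n`.

**The proof.** For abelian varieties see `MP_0f183b_ag.OneClassSuffices`; the classes which are needed
there are products of a class in `H ^ 1 ⊗ H ^ 1 ⊗ H ^ 1` and a supersingular class. Let `x` in `H ^ i (X)`,
`i ≤ dim X`, be a generalised eigenvector of Frobenius with the eigenvalue `a`. Then
`a = q ^ c w ^ (i - 2 c)` for a Weil number `w` of weight one, up to a root of unity. Let `B` be an
abelian variety with a basis of eigenvectors of its first cohomology which contains `i - 2 c` vectors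
with the eigenvalue `q / w`, let `y` be their product and `z` the product of the other ones. Then
`x ⊗ y` is a generalised Tate class of codimension `i - c`, and `B` and the basis can be chosen so that
it is one of the classes in (b). If `x ⊗ u` is a generalised Tate class on `X × A` then `z ⊗ u` is a
Tate class on `B × A`, and `x ⊗ u` is the push-forward of the product of `x ⊗ y` and `z ⊗ u` from
`X × B × A`. By the hard Lefschetz theorem and Künneth the classes `x` for which this works span the
cohomology of all products of members of `W`.
-/

set_option autoImplicit false

namespace Pool.Agent.Results.MP_950c68_ag.CodimensionTwoForSurfaces

open Pool.Agent.V8H94.CT (AbVar)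
open Pool.Agent.V8H94.TC (TateHolds GeneralisedTate)
open Pool.Agent.V8H94.TV
open Pool.Agent.V8H94.TS
open Pool.Agent.V8H94.TX (TateWithSupersingular)

/-- **The strong Tate conjecture and the generalised Tate conjecture in all codimensions for all
products of members of a class `W` of varieties and abelian varieties are equivalent to the strong
Tate conjecture for the classes in `H ^ i (X) ⊗ H ^ 1 (B₁) ⊗ ... ⊗ H ^ 1 (B_j)`, `X` in `W`,
`i ≤ dim X`, `j = i - 2 c`, if the slopes of `H ^ i (X)` are at least `c`, for the classes of
codimension one on abelian varieties and for the classes in
`H ^ 1 (B₁) ⊗ H ^ 1 (B₂) ⊗ H ^ 1 (B₃) ⊗ H ^ 1 (E)`, for abelian varieties `B₁, B₂, ...` and supersingular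
elliptic curves `E`.** If `W` consists of surfaces, and of threefolds such that the slopes
of `H ^ 3 (X)` are at least one, only codimension at most two occurs here, and the part of codimension
at most one is the theorem of Tate. The strong Tate conjecture for all `X × A` is the Tate conjecture
for all `X × A` with the semisimplicity of Frobenius on `H (X)`. -/
theorem result (p : ℕ) [Fact p.Prime] (Ω : Type) [Field Ω] [IsAlgClosed Ω] [CharZero Ω]
    (H : Cohomology p Ω) (Z : Cycles p H.T) (W : Set H.T.V) (c : H.T.V → ℕ → ℕ)
    (hc : ∀ X ∈ W, ∀ i ≤ H.T.dim X, 2 * c X i ≤ i ∧ SlopesAtLeast p H.T X i (c X i)) :
    (((∀ A : AbVar p Ω, GeneralisedTate Z.S A ∧ ∀ r, TateHolds Z.S A r) ∧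
      ∀ X, IsProduct H.T W X → ∀ A : AbVar p Ω, StrongTate Z X A ∧ GeneralisedTate₂ Z X A) ↔
    ((∀ A : AbVar p Ω, TateHolds Z.S A 1) ∧ TateWithSupersingular Z.S ∧
      ∀ X ∈ W, ∀ i ≤ H.T.dim X, TateInDegrees Z X i (i - 2 * c X i) (i - c X i))) ∧
    (AreTate Z → ∀ X : H.T.V, (∀ A : AbVar p Ω, StrongTate Z X A) ↔
      (∀ A : AbVar p Ω, Tate₂ Z X A) ∧ IsSemisimple H.T X) :=
  ⟨V8H94.TX.main H Z W c hc, fun h X => strong_iff h X⟩

end Pool.Agent.Results.MP_950c68_ag.CodimensionTwoForSurfaces
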