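import Pool.Agent.V8H77.K3.Pub

/-!
# The Tate conjecture for abelian varieties over finite fields and classes of K3 type

**Theorem.** Fix a prime number `p`, a subfield `L` of an algebraically closed field `Ω` of
characteristic zero, and a natural number `N > 0`. The following statements about algebraic cycles on
the abelian varieties over finite fields of characteristic `p` whose Frobenius eigenvalues have powers
in `L` (for `L = Ω`: on all abelian varieties over finite fields of characteristic `p`) are equivalent:

1. the generalised Tate conjecture, in all degrees and all codimensions, for all these varieties;
2. the Tate conjecture, in all codimensions, for all these varieties;
3. the Tate classes of codimension two in the Kuenneth component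
   `H ^ 2 (A) ⊗ H ^ 1 (C) ⊗ H ^ 1 (E)` of the products `A × C × E` are algebraic, where `A` and `C` are
   such varieties, `E` is a supersingular elliptic curve, and `C` is of K3 type with all slopes between
   `1 / 2 - 1 / (2 * N)` and `1 / 2 + 1 / (2 * N)`.

Here `C` is of K3 type if for each Frobenius eigenvalue `a` of `C` over the field with `q` elements some
power `α = a ^ s` lies in a number field `K`, normal over `ℚ`, such that `α ^ 2 / q ^ s` is a unit at all
prime ideals of `K` with at most two exceptions (if there are exceptions then they are two complex
conjugate prime ideals). So `C` is supersingular away from one prime ideal of `K` and its conjugate.
The numbers `β / q`, `β` an eigenvalue of Frobenius on the transcendental part of `H ^ 2` of a K3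
surface, satisfy the same condition for the field `K` generated by `β`; if the surface is ordinary then
the square roots of the `β` are the eigenvalues of abelian varieties of K3 type in the sense of Zarhin,
with slopes `0`, `1 / 2` and `1`. The condition here is stronger since `K` is normal: then a power of
`α` generates the decomposition field of the exceptional prime ideal. In 3 the number `N` is
arbitrary: the piece `H ^ 1 (C) ⊗ H ^ 1 (E)` of K3 type may be taken arbitrarily near to a supersingular
one.

Since polarizations identify `H ^ 1 (C)` and `H ^ 1 (E)` with their duals up to a Tate twist, a Tate
class in `H ^ 2 (A) ⊗ H ^ 1 (C) ⊗ H ^ 1 (E)` is the same as a homomorphism of Frobenius modules (over a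
finite extension) from `H ^ 1 (C) ⊗ H ^ 1 (E)` to `H ^ 2 (A)`. So the theorem says: the (generalised)
Tate conjecture for abelian varieties over finite fields holds if and only if the homomorphisms of
Frobenius modules from the pieces of K3 type `H ^ 1 (C) ⊗ H ^ 1 (E)` of the second cohomology of abelian
varieties to the second cohomology of abelian varieties are induced by algebraic correspondences, and
here it is enough to consider pieces `H ^ 1 (C) ⊗ H ^ 1 (E)` whose slopes differ from `1` by at most
`1 / (2 * N)`.

**How this is stated.** By the theorems of Tate and of Honda and Tate an abelian variety over the
field with `p ^ m` elements is determined up to isogeny by its first cohomology `H` with the Frobenius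
endomorphism `F`, for any coefficient field `Ω` (here: any algebraically closed field of
characteristic zero), and the pairs `(H, F)` that occur are those for which `F` is diagonalizable and
the characteristic polynomial of `F` is a product of powers `P ^ e` as in `IsIsotypic`. They are the
objects `AbVar p Ω`. The cohomology algebra is the exterior algebra of `H`. The linear combinations
of the maps on `H` given by homomorphisms over the algebraic closure are the linear maps that commute
with powers of Frobenius (`IsHom`; Tate). A `CycleSystem` is a family of subspaces `C A` of the
exterior algebras of all `A` with the formal properties of the algebraic classes: `1` belongs to it,
it is stable under cup products and under pull-backs, and under push-forward in the following weak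
form: if `x × [point]` on `A × B` belongs to it then `x` does. The theorem holds for all cycle systems
that contain the Tate classes of codimension one on the varieties `A` with Frobenius eigenvalues in
`L`; the linear combinations of the classes of algebraic cycles over the algebraic closure are such a
system, by Tate's theorem. (They are stable under pull-back by all maps in `IsHom`, since the pull-back
is a polynomial in the homomorphism and the homomorphisms are Zariski dense.) So no conjecture or
theorem about cycles is assumed.

The generalised Tate conjecture says that a class `x` of degree `j + 2 * r` on which Frobenius acts
as `q ^ r` times an algebraic integer (`IsEffective`) is supported in codimension `r`. Here `x` is even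
shown to be a linear combination of pull-backs, under homomorphisms of abelian varieties, of images of
classes of degree `j` on abelian varieties under algebraic correspondences (`Supported`). The case
`j = 0` is the Tate conjecture.

**Known.** For the Hodge conjecture for all abelian varieties of CM type together Hazama proved (2002,
2003) that codimension two suffices, also for the general Hodge conjecture; Milne (1999) proved that
the Hodge conjecture for these varieties implies the Tate conjecture for abelian varieties over finite
fields. That the Tate conjecture for all varieties together implies the generalised one is well
known. New are the reduction to classes with a factor of K3 type that is arbitrarily near to a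
supersingular one, and the statement field by field, for all subfields `L`. The result
`MP_0f183b_ag.OneClassSuffices` of this collection says that for each `A` there is a larger variety
`B` for which one class `y * z` on `B`, with `y` and `z` supersingular, decides. There is no condition
of K3 type or on slopes in it, and it does not imply the present theorem.

**The idea.** Up to roots of unity a Weil number `w` for `c ^ 2 = p ^ (2 κ)` with a power in a normal
number field `K` is given by its slopes at the places of `K` above `p`. One takes a suitable `κ` and all
`w` such that `w ^ n` belongs to a certain group of rank the number of pairs of places, `n` divisible
enough; then exactly the odd functions `τ w` on the set of places with `|τ w x| ≤ n * e x` occur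
(finiteness of the class number and Kronecker's theorem). The step `δ` at one place `x` and its
conjugate corresponds to a number `w'` of K3 type, and the slopes of `w'` differ from `1 / 2` by at most
`1 / (2 * n)`. If `τ w = τ w'' + δ` then `w * c` and `w' * w''` agree up to a root of unity, and this
relation gives a Tate class in `H ^ 2 (A) ⊗ H ^ 1 (C) ⊗ H ^ 1 (E)`. Each odd function bounded by `n * e`
can be reduced to `0` by such steps within the bounds. So all multiplicative relations between the
numbers `w`, that is, all Tate classes, are obtained from these relations of length four by products
and cancellations, and cancellations are push-forwards. For the generalised conjecture: if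
`w_1 ... w_(j + 2 r)` is divisible by `c ^ (2 r)` then the sum of the functions `τ w_i` is bounded by
`j * n * e`, hence is a sum of `j` functions bounded by `n * e`.
-/

set_option autoImplicit false

namespace Pool.Agent.Results.MP_950c68_ag.K3TypeClassesSuffice

open Pool.Agent.V8H94.CT (AbVar)
open Pool.Agent.V8H94.TC
open Pool.Agent.V8H77.KT

/-- **The Tate conjecture and the generalised Tate conjecture for the abelian varieties over finite
fields with Frobenius eigenvalues in `L` are equivalent to the algebraicity of the Tate classes of
codimension two in `H ^ 2 (A) ⊗ H ^ 1 (C) ⊗ H ^ 1 (E)`, `E` a supersingular elliptic curve, `C` of K3
type and as near to supersingular as one likes.** -/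
theorem result (p : ℕ) [Fact p.Prime] (Ω : Type) [Field Ω] [IsAlgClosed Ω] [CharZero Ω]
    (L : Subfield Ω) (N : ℕ) (hN : 0 < N) (S : CycleSystem p Ω)
    -- the system contains the divisor classes (for algebraic classes: the theorem of Tate)
    (hS : ∀ A : AbVar p Ω, FrobeniusIn L A → TateHolds S A 1) :
    List.TFAE [
      ∀ A : AbVar p Ω, FrobeniusIn L A → GeneralisedTate S A,
      ∀ A : AbVar p Ω, FrobeniusIn L A → ∀ r : ℕ, TateHolds S A r,
      K3TypeClasses S L N] :=
  k3_type_classes_suffice L N hN S hS

end Pool.Agent.Results.MP_950c68_ag.K3TypeClassesSuffice
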