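import Mathlib
import Pool.Agent.V8H92.NS.Curves

/-!
# MP_950c68_ag: the Tate conjecture for abelian varieties whose real Frobenius fields have only one
place over `p`, and for all products of Kloosterman curves

**The general theorem.** Let `A_1, A_2, …` be abelian varieties over finite fields of characteristic
`p`. The Frobenius eigenvalues `α` of `A_i` have the traces `α + q / α`, totally real algebraic
integers. Suppose that the traces (or the traces `α ^ N + (q / α) ^ N` of powers, which means: after
extensions of the ground field) of all `A_i` are contained in one number field `F`, and that there is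
only one prime ideal `P` of `F` over `p`, so `P ^ e = (p)`. Nothing is assumed on the Galois groups:
the degree of `F` over `ℚ`, the Galois group of its closure and the CM fields `F(α)` are arbitrary.
Write `E` for the set of the eigenvalues. Then

1. All Tate classes, on all products of powers of the `A_i`, over all finite extensions of the ground
field, are polynomials in Tate classes of degree two (which are classes of divisors, by the theorem of
Tate; so the Tate conjecture and semisimplicity hold in all codimensions) **if and only if** there is
no exotic relation between **two** eigenvalues: `(α ^ A β ^ B) ^ (2 s) = q ^ ((A + B) s)`, `A, B > 0`,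
implies that `α β` is `q` times a root of unity (`PairwiseTate`).

2. This is so if there is an `s < 1 / 2` such that all slopes of all `A_i` are `s`, `1 - s` or
`1 / 2`; for instance, for all ordinary abelian varieties. In this case, moreover, let `U` be **any**
smooth projective variety, with a Frobenius endomorphism `φ` on `M = H^w(U)`, such that for each
eigenvalue `β` of `φ` the mean of the numbers `(2 λ - w) ^ 2`, `λ` the slopes of `β`, is smaller than
`(1 - 2 s) ^ 2`. No condition on the field of `β` is imposed (it may be contained in the CM fields of
the `A_i`). Then all Tate classes in `H^n(Y) ⊗ H^w(U)`, for all products `Y` of powers of the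
`A_i`, are linear combinations of products of polynomials in Tate classes of degree two of `Y` and
of Tate classes of `U` (and the same for generalised Tate classes). For odd `n` there are none, unless
`A_i` and `U` have a supersingular part.

3. The slopes are automatically `0`, `1` and `1 / 2` for all abelian varieties over the field with
`q = p ^ m` elements with traces in `F` if `e m ≤ 2`. So, for example, if `p` is inert in a totally
real field `F`, then 1. and 2. hold for **all** abelian varieties over the fields with `p` and
`p ^ 2` elements with traces in `F`. If `F` is Galois over `ℚ` (so that it has the traces of all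
conjugates), these are for instance the reductions modulo `p` of the abelian varieties of all
newforms of weight two (trivial character, level prime to `p`) with Hecke field `F`.

**Kloosterman curves.** The last part is an explicit family, with no assumption: let `p` be odd, and
let the `A_i` be Jacobians of arbitrary Kloosterman curves `y ^ q - y = a x + b / x` over arbitrary
finite fields of characteristic `p` (their quotients `y ^ (q') - y = a x + b / x` are included in
them), ordinary elliptic curves, and supersingular abelian varieties. The Kloosterman sums are in the
field of `p`-th roots of unity, in which `p` is totally ramified, and the curves are ordinary. So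
**the Tate conjecture holds in all codimensions for all products of Kloosterman curves, elliptic
curves and supersingular abelian varieties**, and the Tate classes of `Y × U` are as in 2. for all
these products `Y` and all `U` with means smaller than `1`.

Examples for `U`: a K3 surface of finite height `h` and geometric Picard number `ρ` has the mean
`8 / (h (22 - ρ))`, so the theorem holds for all K3 surfaces with `h (22 - ρ) > 8` (all heights
`h ≥ 3`, `h = 2` and `ρ ≤ 16`, ordinary with `ρ ≤ 12`), and implies the Tate conjecture for
`Y × U` in all codimensions, by the known case of divisors on K3 surfaces. For a curve `U` the mean is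
smaller than `1` for all eigenvalues if and only if its Jacobian has no ordinary factor; so the Tate
conjecture holds for `Y × U` for all curves `U` whose Jacobian has neither ordinary nor
supersingular factors.

The proof. Let `L` be a Galois extension of `ℚ` with the eigenvalues, `N` its subgroup fixing the
Galois closure of `F`. Let `d_α(g)` be the valuation of `g α`, minus half of the one of `q`, for a
place of `L` over `p`. For `v` in `N` we have `d_{v α} = χ_α(v) d_α`, with a quadratic character
`χ_α` of the group of automorphisms over `F`. As `F` has only one place over `p`, each `d_α` is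
determined by its restriction to this group. So the sum of the `d_α` over the factors of a
relation with the same character is zero, if the contribution of `β` is small (by an
inequality of Bessel type for orthogonal characters), and this leads to a relation with two factors.
-/

set_option autoImplicit false

open Module NumberField

namespace Pool.Agent.Results.MP_950c68_ag.NonsplitPrimes

open Pool.Agent.V8H92.NS

/-- **The Tate conjecture for abelian varieties whose Frobenius traces are in a field with one place
over `p`, and for products of Kloosterman curves.** -/
theorem result (p : ℕ) [Fact p.Prime] :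
    -- the general theorem: `F` has only one prime ideal `P` over `p`
    (∀ (Ω : Type) [Field Ω] [IsAlgClosed Ω] [CharZero Ω] (F : Type) [Field F] [NumberField F]
      (P : Ideal (𝓞 F)) (e : ℕ), P.IsPrime → e ≠ 0 → P ^ e = Ideal.span {(p : 𝓞 F)} →
      ∀ (j : F →+* Ω) (q m : ℕ), q = p ^ m → 0 < m →
      ∀ E : Set Ω, (∀ α ∈ E, HasTrace j q α) →
      -- the criterion
      (PairwiseTate q E ↔ ∀ (V : Type) [AddCommGroup V] [Module Ω V] [FiniteDimensional Ω V]
        (Fr : V →ₗ[Ω] V), SpannedBy E Fr → TateGenerated Fr q) ∧
      -- equal slopes, and products with arbitrary varieties
      (∀ s : ℝ, s < 1 / 2 → (∀ α ∈ E, SlopesIn p q s α) → PairwiseTate q E ∧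
        ∀ (V M : Type) [AddCommGroup V] [Module Ω V] [AddCommGroup M] [Module Ω M]
          [FiniteDimensional Ω M] (Fr : V →ₗ[Ω] V) (φ : M →ₗ[Ω] M) (w : ℕ), SpannedBy E Fr →
          (∀ β : Ω, β ≠ 0 → End.HasEigenvalue φ β → IsIntegral ℚ β ∧
            meanSquare p q w β < (1 - 2 * s) ^ 2) → TimesTate Fr φ q w) ∧
      -- small ramification index and small ground field
      (e * m ≤ 2 → (∀ α ∈ E, ∃ t, IsTrace q t ∧ TraceEq j q 1 t α) →
        ∀ α ∈ E, SlopesIn p q 0 α)) ∧
    -- Kloosterman curves, elliptic curves, supersingular abelian varieties
    (p ≠ 2 → ∀ (ι : Type) [Fintype ι] (W : ι → Type) [∀ i, AddCommGroup (W i)]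
      [∀ i, Module ℂ (W i)] [∀ i, FiniteDimensional ℂ (W i)] (Φ : ∀ i, W i →ₗ[ℂ] W i)
      (n N : ι → ℕ) (q m : ℕ), q = p ^ m → 0 < m → (∀ i, 0 < N i) → (∀ i, n i ^ N i = q) →
      (∀ i, IsPiece p (n i) (Φ i)) →
      TateGenerated (sumFrob Φ N) q ∧
      ∀ (M : Type) [AddCommGroup M] [Module ℂ M] [FiniteDimensional ℂ M] (φ : M →ₗ[ℂ] M) (w : ℕ),
        (∀ β : ℂ, β ≠ 0 → End.HasEigenvalue φ β → IsIntegral ℚ β ∧ meanSquare p q w β < 1) →
        TimesTate (sumFrob Φ N) φ q w) := by
  refine ⟨?_, ?_⟩
  · intro Ω _ _ _ F _ _ P e hP he h j q m hqm hm E hE
    have hF : OnePlace p F := onePlace_of_pow hP he h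
    have hq0 : (q : Ω) ≠ 0 := by
      rw [hqm]
      push_cast
      exact pow_ne_zero m (by exact_mod_cast (Fact.out : p.Prime).ne_zero)
    refine ⟨⟨?_, ?_⟩, ?_, ?_⟩
    · intro hC V _ _ _ Fr hFr
      exact tate_generated hF hqm hm hE hC Fr hFr
    · intro H
      exact pairwise_of_generated hq0 fun V _ _ _ Fr hFr => H V Fr hFr
    · intro s hs hsl
      refine ⟨pairwiseTate_of_slopes hqm hm hE hs hsl, ?_⟩
      intro V M _ _ _ _ _ Fr φ w hFr hφ
      exact times_of_slopes hF hqm hm hE hs hsl Fr hFr φ hφ
    · intro hem hE' α hα
      obtain ⟨t, ht1, ht2⟩ := hE' α hα
      exact slopes_of_small hqm hm hP he h hem ht1 ht2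
  · intro hp2 ι _ W _ _ _ Φ n N q m hqm hm hN hnN hΦ
    exact curves hp2 W Φ n N hqm hm hN hnN hΦ

end Pool.Agent.Results.MP_950c68_ag.NonsplitPrimes
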