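import Pool.Agent.V8H88.UN.Main

/-!
# MP_950c68_ag: one exceptional set of density zero for all products of members of families

Let `Y` be a smooth proper variety over an algebraic closure of a finite field such that the Tate
conjecture and the semisimplicity of the Frobenius endomorphism for the Tate classes hold for all
products of copies of `Y`, for example a point. Let `F i` be families of varieties over `Y` with
multiplication by number fields `K i` and full symplectic or orthogonal monodromy over these
fields (for example the families of curves, abelian varieties, K3 surfaces, with or without real
multiplication). The members of `F i` over the field with `p ^ m` elements have parameters in the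
finite set `S_i(m)`.

Then there are sets `B_i(m)` of exceptional members, which contain only `o(#S_i(m))` members as `m`
tends to infinity, such that the Tate conjecture and the semisimplicity hold in all codimensions
for all products of copies of `Y` and of **arbitrarily many** members which are not exceptional, of
any of the families and over any finite fields, if the fields generated by the eigenvalues of
Frobenius of these members (on the non-constant parts of the cohomology) are pairwise different.
Only `o(#S_i(m) * #S_j(m))` of the pairs of members over the field with `p ^ m` elements have the
same field.

(In `AlmostAllMembers` and `RealMultiplicationFamilies` the number of members is fixed, all members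
are over the same finite field, and the exceptional objects are tuples of members.)
-/

open CategoryTheory AlgebraicGeometry Polynomial NumberField

universe u v

namespace Pool.Agent.Results.MP_950c68_ag.UniformFamilies

open Pool.Agent.H914 Pool.Agent.W534 Pool.Agent.W458.MF Pool.Agent.V8H88.RM Pool.Agent.V8H88.UN
  VarClass Obj WeilCohomology

/-- **The Tate conjecture and semisimplicity for all products of arbitrarily many members, outside
one set of density zero, with pairwise different Frobenius fields.** -/
theorem result {k : Type u} [Field k] {𝒱 : VarClass k} {ops : CycleOps 𝒱}
    (W : WeilCohomology.{u, v} ops) [IsAlgClosed W.K] (σ : W.K →+* ℂ) (p : ℕ)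
    (hp : p.Prime) (Φ : FrobSystem W p) (Y : 𝒱.Obj)
    (hint : ∀ μ : W.K, Module.End.HasEigenvalue (W.map (Φ.Fr Y)).toLinearMap μ → IsIntegral ℤ μ)
    (hY : ∀ Z, IsProductOf {Y} Z → ∀ j ≤ Z.dim, SemisimpleTateIn Φ Z j)
    {I : Type} (K : I → Type) [∀ i, Field (K i)] [∀ i, NumberField (K i)]
    (F : ∀ i, RFamily W Y (K i)) (hF : ∀ i, (F i).HasFullMonodromy Φ) :
    Uniform (fun i => (F i).toFamily) p fun Z => ∀ j, SemisimpleTateIn Φ Z j :=
  uniform W σ p hp Φ Y hint hY K F hF

end Pool.Agent.Results.MP_950c68_ag.UniformFamilies
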